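import Pool.Agent.Y278.MK.Stm

/-!
# MK-FFS: `ff` is smooth in the complex sense
-/

set_option autoImplicit false

namespace Pool.Agent.Y287.MK

open MeasureTheory Set Real Filter Topology
open scoped ContDiff
open Pool.Agent.Y278.MK

/-- parametric integrals of smooth functions -/
theorem param {E F : Type} [NormedAddCommGroup E] [NormedSpace ℂ E] [ProperSpace E]
    [NormedAddCommGroup F] [NormedSpace ℂ F] {c : ℝ → F} (hc : Continuous c) (a b : ℝ) (n : ℕ) :
    ∀ (G : Type) [NormedAddCommGroup G] [NormedSpace ℂ G] [CompleteSpace G] (Ψ : E × F → G),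
      ContDiff ℂ n Ψ → ContDiff ℂ n (fun x => ∫ θ in a..b, Ψ (x, c θ)) := by
  induction n with
  | zero =>
    intro G _ _ _ Ψ hΨ
    rw [Nat.cast_zero, contDiff_zero] at hΨ ⊢
    refine intervalIntegral.continuous_parametric_intervalIntegral_of_continuous' ?_ a b
    exact hΨ.comp (continuous_fst.prodMk (hc.comp continuous_snd))
  | succ n ih =>
    intro G _ _ _ Ψ hΨ
    rw [Nat.cast_succ] at hΨ ⊢
    have hd : ContDiff ℂ n fun p : E × F =>
        (fderiv ℂ Ψ p).comp (ContinuousLinearMap.inl ℂ E F) :=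
      (hΨ.fderiv_right le_rfl).clm_comp contDiff_const
    have hcd : Continuous fun p : E × F =>
        (fderiv ℂ Ψ p).comp (ContinuousLinearMap.inl ℂ E F) := hd.continuous
    have hcont : ∀ x : E, Continuous fun θ => Ψ (x, c θ) := fun x =>
      hΨ.continuous.comp (continuous_const.prodMk hc)
    have hcont' : ∀ x : E, Continuous fun θ =>
        (fderiv ℂ Ψ (x, c θ)).comp (ContinuousLinearMap.inl ℂ E F) := fun x =>
      hcd.comp (continuous_const.prodMk hc)
    rw [contDiff_succ_iff_hasFDerivAt]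
    refine ⟨fun x => ∫ θ in a..b, (fderiv ℂ Ψ (x, c θ)).comp (ContinuousLinearMap.inl ℂ E F),
      ih _ _ hd, ?_⟩
    intro x0
    have hK : IsCompact (Metric.closedBall x0 1 ×ˢ uIcc a b : Set (E × ℝ)) :=
      (isCompact_closedBall x0 1).prod isCompact_uIcc
    have hco : Continuous fun q : E × ℝ =>
        (fderiv ℂ Ψ (q.1, c q.2)).comp (ContinuousLinearMap.inl ℂ E F) :=
      hcd.comp (continuous_fst.prodMk (hc.comp continuous_snd))
    obtain ⟨C, hC⟩ := hK.exists_bound_of_continuousOn hco.continuousOn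
    refine intervalIntegral.hasFDerivAt_integral_of_dominated_of_fderiv_le (𝕜 := ℂ)
      (F := fun x θ => Ψ (x, c θ))
      (F' := fun x θ => (fderiv ℂ Ψ (x, c θ)).comp (ContinuousLinearMap.inl ℂ E F))
      (bound := fun _ => C) (Metric.ball_mem_nhds x0 one_pos) ?_ ?_ ?_ ?_ ?_ ?_
    · exact Eventually.of_forall fun x => (hcont x).aestronglyMeasurable
    · exact (hcont x0).intervalIntegrable _ _
    · exact (hcont' x0).aestronglyMeasurable
    · refine Eventually.of_forall fun θ hθ x hx => ?_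
      exact hC (x, θ) ⟨Metric.ball_subset_closedBall hx, uIoc_subset_uIcc hθ⟩
    · exact intervalIntegrable_const
    · refine Eventually.of_forall fun θ _ x _ => ?_
      have h1 : HasFDerivAt Ψ (fderiv ℂ Ψ (x, c θ)) (x, c θ) :=
        (hΨ.differentiable (by simp) (x, c θ)).hasFDerivAt
      exact h1.comp x (hasFDerivAt_prodMk_left x (c θ))

theorem param' {E F : Type} [NormedAddCommGroup E] [NormedSpace ℂ E] [ProperSpace E]
    [NormedAddCommGroup F] [NormedSpace ℂ F] {c : ℝ → F} (hc : Continuous c) (a b : ℝ)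
    (G : Type) [NormedAddCommGroup G] [NormedSpace ℂ G] [CompleteSpace G] (Ψ : E × F → G)
    (hΨ : ContDiff ℂ ∞ Ψ) : ContDiff ℂ ∞ (fun x => ∫ θ in a..b, Ψ (x, c θ)) := by
  rw [contDiff_infty] at hΨ ⊢
  exact fun n => param hc a b n G Ψ (hΨ n)

theorem EE_cd : ContDiff ℂ ∞ EE := by
  have h : ContDiff ℂ ∞ fun p : ℂ × ℂ => p.2 * Complex.exp (p.2 * p.1) := by fun_prop
  exact param' (c := fun r : ℝ => (r : ℂ)) Complex.continuous_ofReal 0 1 ℂ _ h

theorem yy_cont {h : ℝ → ℝ} (hh : C2P h) : Continuous (yy h) := by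
  have h1 : Continuous h := hh.1.continuous
  have h2 : Continuous (deriv h) := hh.1.continuous_deriv (by norm_num)
  unfold yy
  fun_prop

theorem rho_cont {h : ℝ → ℝ} (hh : C2P h) : Continuous (rho h) := by
  have h1 : Continuous h := hh.1.continuous
  have h2 : Continuous (deriv (deriv h)) := by
    have h3 : ContDiff ℝ 1 (deriv h) := by
      have h4 : ContDiff ℝ (1 + 1) h := by
        have : (1 + 1 : WithTop ℕ∞) = 2 := by norm_num
        rw [this]
        exact hh.1
      exact (contDiff_succ_iff_deriv.1 h4).2.2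
    exact h3.continuous_deriv (by norm_num)
  unfold rho
  fun_prop

theorem ffs_thm : S_FFS := by
  intro h k hh hk
  have c1 := yy_cont hh
  have c2 := yy_cont hk
  have c3 := rho_cont hh
  have c4 := rho_cont hk
  have c5 : Continuous h := hh.1.continuous
  have c6 : Continuous k := hk.1.continuous
  let c : ℝ → (ℂ × ℂ) × (ℂ × ℂ) × (ℂ × ℂ) := fun θ =>
    (((yy h θ : ℝ), (yy k θ : ℝ)), ((h θ : ℝ), (k θ : ℝ)), ((rho h θ : ℝ), (rho k θ : ℝ)))
  have hc : Continuous c :=
    ((Complex.continuous_ofReal.comp c1).prodMk (Complex.continuous_ofReal.comp c2)).prodMk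
      (((Complex.continuous_ofReal.comp c5).prodMk (Complex.continuous_ofReal.comp c6)).prodMk
        ((Complex.continuous_ofReal.comp c3).prodMk (Complex.continuous_ofReal.comp c4)))
  have hE := EE_cd
  have hΨ : ContDiff ℂ ∞ fun q : (ℂ × ℂ) × ((ℂ × ℂ) × (ℂ × ℂ) × (ℂ × ℂ)) =>
      EE (Complex.I * q.1.1 * (q.2.1.1 + q.1.2 * q.2.1.2)) *
        ((q.2.2.1.1 + q.1.2 * q.2.2.1.2) * (q.2.2.2.1 + q.1.2 * q.2.2.2.2)) := by
    refine (hE.comp ?_).mul ?_
    · fun_prop
    · fun_prop
  exact param' hc 0 (2 * π) ℂ _ hΨ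

end Pool.Agent.Y287.MK
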