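import Pool.Agent.Y287.MK.HolB

/-!
# MK-HOL: the theorem
-/

set_option autoImplicit false

namespace Pool.Agent.Y287.MK

open MeasureTheory Set Filter Topology
open scoped FourierTransform RealInnerProductSpace
open Pool.Agent.Y278.MK
open Pool.Agent.TH298.Sch (Sol)

theorem cont_F {f : ℂ → ℂ} (hf : Integrable f) : Continuous (𝓕 f) :=
  VectorFourier.fourierIntegral_continuous Real.continuous_fourierChar
    (by exact continuous_inner) hf

theorem cont_Fi {f : ℂ → ℂ} (hf : Integrable f) : Continuous (𝓕⁻ f) := by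
  have h1 : (𝓕⁻ f) = fun x => 𝓕 f (-x) := by
    funext x
    exact Real.fourierInv_eq_fourier_neg f x
  rw [h1]
  exact (cont_F hf).comp continuous_neg

/-- Hoelder continuity of inverse transforms -/
theorem hol_Fi {V : ℂ → ℂ} {A : ℝ} (hVi : Integrable V)
    (hV : ∀ ξ, ‖V ξ‖ ≤ A * (1 + ‖ξ‖) ^ (-(3 : ℝ))) (x y : ℂ) :
    ‖𝓕⁻ V x - 𝓕⁻ V y‖ ≤
      2 * √(2 * Real.pi) * (A * ∫ ξ : ℂ, (1 + ‖ξ‖) ^ (-(5 / 2) : ℝ)) * √‖x - y‖ := by
  have hpi := Real.pi_pos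
  have hint : Integrable fun ξ : ℂ => (1 + ‖ξ‖) ^ (-(5 / 2) : ℝ) := by
    refine integrable_one_add_norm ?_
    rw [Complex.finrank_real_complex]
    norm_num
  have hi : ∀ z : ℂ, Integrable fun ξ : ℂ =>
      Complex.exp (((2 * Real.pi * ⟪ξ, z⟫ : ℝ) : ℂ) * Complex.I) • V ξ := by
    intro z
    refine hVi.bdd_mul (c := 1) (by fun_prop : Continuous fun ξ : ℂ =>
      Complex.exp (((2 * Real.pi * ⟪ξ, z⟫ : ℝ) : ℂ) * Complex.I)).aestronglyMeasurable ?_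
    exact Eventually.of_forall fun ξ => (Complex.norm_exp_ofReal_mul_I _).le
  rw [Real.fourierInv_eq', Real.fourierInv_eq', ← integral_sub (hi x) (hi y)]
  have hg : Integrable fun ξ : ℂ => 2 * √(2 * Real.pi) * √‖x - y‖ * A *
      (1 + ‖ξ‖) ^ (-(5 / 2) : ℝ) := hint.const_mul _
  refine (norm_integral_le_of_norm_le hg (Eventually.of_forall fun ξ => ?_)).trans ?_
  · have h1 : 0 < 1 + ‖ξ‖ := by positivity
    rw [← sub_smul, norm_smul]
    have h2 := exp_sub_sqrt (2 * Real.pi * ⟪ξ, x⟫) (2 * Real.pi * ⟪ξ, y⟫)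
    have h3 : |2 * Real.pi * ⟪ξ, x⟫ - 2 * Real.pi * ⟪ξ, y⟫| ≤
        2 * Real.pi * (1 + ‖ξ‖) * ‖x - y‖ := by
      have h4 : 2 * Real.pi * ⟪ξ, x⟫ - 2 * Real.pi * ⟪ξ, y⟫ = 2 * Real.pi * ⟪ξ, x - y⟫ := by
        rw [inner_sub_right]
        ring
      rw [h4, abs_mul, abs_of_pos (by positivity : (0 : ℝ) < 2 * Real.pi)]
      have h5 : |⟪ξ, x - y⟫| ≤ (1 + ‖ξ‖) * ‖x - y‖ :=
        (abs_real_inner_le_norm _ _).trans
          (mul_le_mul_of_nonneg_right (by linarith) (norm_nonneg _))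
      calc 2 * Real.pi * |⟪ξ, x - y⟫| ≤ 2 * Real.pi * ((1 + ‖ξ‖) * ‖x - y‖) :=
            mul_le_mul_of_nonneg_left h5 (by positivity)
        _ = 2 * Real.pi * (1 + ‖ξ‖) * ‖x - y‖ := by ring
    have h4 : √|2 * Real.pi * ⟪ξ, x⟫ - 2 * Real.pi * ⟪ξ, y⟫| ≤
        √(2 * Real.pi) * (1 + ‖ξ‖) ^ (1 / 2 : ℝ) * √‖x - y‖ := by
      refine (Real.sqrt_le_sqrt h3).trans ?_
      rw [Real.sqrt_mul (by positivity : (0 : ℝ) ≤ 2 * Real.pi * (1 + ‖ξ‖)),
        Real.sqrt_mul (by positivity : (0 : ℝ) ≤ 2 * Real.pi), Real.sqrt_eq_rpow (1 + ‖ξ‖)]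
    have h5 : (1 + ‖ξ‖) ^ (1 / 2 : ℝ) * (1 + ‖ξ‖) ^ (-(3 : ℝ)) = (1 + ‖ξ‖) ^ (-(5 / 2) : ℝ) := by
      rw [← Real.rpow_add h1]
      norm_num
    calc ‖Complex.exp (((2 * Real.pi * ⟪ξ, x⟫ : ℝ) : ℂ) * Complex.I) -
          Complex.exp (((2 * Real.pi * ⟪ξ, y⟫ : ℝ) : ℂ) * Complex.I)‖ * ‖V ξ‖
        ≤ (2 * (√(2 * Real.pi) * (1 + ‖ξ‖) ^ (1 / 2 : ℝ) * √‖x - y‖)) *
          (A * (1 + ‖ξ‖) ^ (-(3 : ℝ))) :=
          mul_le_mul (h2.trans (mul_le_mul_of_nonneg_left h4 (by norm_num))) (hV ξ)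
            (norm_nonneg _) (by positivity)
      _ = 2 * √(2 * Real.pi) * √‖x - y‖ * A *
          ((1 + ‖ξ‖) ^ (1 / 2 : ℝ) * (1 + ‖ξ‖) ^ (-(3 : ℝ))) := by ring
      _ = _ := by rw [h5]
  · rw [integral_const_mul]
    refine le_of_eq ?_
    ring

theorem hol_thm : S_HOL := by
  intro r0 R L0 L1 hr hR hL0
  obtain ⟨v, hv⟩ : ∃ v, v = (volume (Metric.ball (0 : ℂ) R)).toReal := ⟨_, rfl⟩
  have hv0 : 0 ≤ v := by rw [hv]; exact ENNReal.toReal_nonneg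
  obtain ⟨A, hA⟩ : ∃ A, A = (2 + 1 / r0) / r0 * v := ⟨_, rfl⟩
  have hA0 : 0 ≤ A := by rw [hA]; positivity
  obtain ⟨A3, hA3⟩ : ∃ A3, A3 = (√L1 * R * v + v) * (2 + √L1) ^ 3 + 8 * (L1 * A) := ⟨_, rfl⟩
  have hI0 : 0 ≤ ∫ ξ : ℂ, (1 + ‖ξ‖) ^ (-(5 / 2) : ℝ) :=
    integral_nonneg fun ξ => by positivity
  have hC0 : 0 ≤ 2 * √(2 * Real.pi) * (|A3| * ∫ ξ : ℂ, (1 + ‖ξ‖) ^ (-(5 / 2) : ℝ)) := by
    positivity
  refine ⟨2 * √(2 * Real.pi) * (|A3| * ∫ ξ : ℂ, (1 + ‖ξ‖) ^ (-(5 / 2) : ℝ)) + 1, by linarith, ?_⟩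
  rintro Ω lam hG hl0 hl1 ⟨c, u, G, hu2, hG2, e1, e2, hne⟩
  have h : Sol Ω lam c u G := ⟨hu2, hG2, e1, e2⟩
  have hm := hG.op.measurableSet
  have hb : Bornology.IsBounded Ω := Metric.isBounded_ball.subset hG.out
  have hlam : 0 < lam := lt_of_lt_of_le hL0 hl0
  have hc := h.c_ne hb hm hlam hne
  have hfin : volume Ω < ⊤ := hb.measure_lt_top
  have hvΩ : (volume Ω).toReal ≤ v := by
    rw [hv]
    exact ENNReal.toReal_mono Metric.isBounded_ball.measure_lt_top.ne (measure_mono hG.out)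
  have hfinm : IsFiniteMeasure (volume.restrict Ω) := Sol.fin hb
  obtain ⟨w, hw⟩ : ∃ w : ℂ → ℂ, w = Ω.indicator fun x => (((u x - c) / c : ℝ) : ℂ) := ⟨_, rfl⟩
  have hwi : Integrable w := by
    rw [hw]
    refine (integrable_indicator_iff hm).2 ?_
    have h1 : IntegrableOn (fun x => (u x - c) / c) Ω :=
      ((h.ui hb).sub (integrable_const c)).div_const c
    exact Integrable.ofReal h1
  obtain ⟨V, hV⟩ : ∃ V : ℂ → ℂ, V = 𝓕 w := ⟨_, rfl⟩
  have hVc : Continuous V := by rw [hV]; exact cont_F hwi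
  have hVo : ∀ ξ, V ξ = Vo Ω c u ξ := by
    intro ξ
    rw [hV, hw, Vo]
  have hrel : ∀ ξ : ℂ, ((4 * Real.pi ^ 2 * ‖ξ‖ ^ 2 - lam : ℝ) : ℂ) * V ξ =
      (lam : ℂ) * Fo Ω ξ := by
    intro ξ
    rw [hVo]
    exact Vo_rel hb hm h hc ξ
  have hb1 : ∀ ξ, ‖V ξ‖ ≤ √L1 * R * v + v := by
    intro ξ
    refine (V_bound hlam hR hv0 hVc hrel (Fo_bound hm hfin hvΩ)
      (Fo_lip hm hR hG.out hfin hvΩ) ξ).trans ?_
    have h1 : √lam ≤ √L1 := Real.sqrt_le_sqrt hl1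
    have h2 : √lam * R * v ≤ √L1 * R * v :=
      mul_le_mul_of_nonneg_right (mul_le_mul_of_nonneg_right h1 hR.le) hv0
    linarith
  have hb3 : ∀ ξ, ‖V ξ‖ ≤ A3 * (1 + ‖ξ‖) ^ (-(3 : ℝ)) := by
    intro ξ
    have h1 := V_decay hlam hl1 hA0 (by positivity) hrel
      (fun ξ hξ => by rw [hA]; exact Fo_decay hr hG hfin hvΩ hξ) hb1 ξ
    rw [← hA3] at h1
    have h2 : 0 < 1 + ‖ξ‖ := by positivity
    rw [Real.rpow_neg h2.le, ← div_eq_mul_inv, le_div_iff₀ (by positivity)]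
    have h3 : (1 + ‖ξ‖) ^ (3 : ℝ) = (1 + ‖ξ‖) ^ 3 := by
      rw [← Real.rpow_natCast]
      norm_num
    rw [h3]
    exact h1
  have hVi : Integrable V := by
    have h1 : Integrable fun ξ : ℂ => (1 + ‖ξ‖) ^ (-(3 : ℝ)) := by
      refine integrable_one_add_norm ?_
      rw [Complex.finrank_real_complex]
      norm_num
    exact Integrable.mono' (h1.const_mul A3) hVc.aestronglyMeasurable (Eventually.of_forall hb3)
  obtain ⟨W, hW⟩ : ∃ W : ℂ → ℂ, W = 𝓕⁻ V := ⟨_, rfl⟩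
  have hWc : Continuous W := by rw [hW]; exact cont_Fi hVi
  have hoff1 : ∀ x, x ∉ closure Ω → W x = 0 := by
    intro x hx
    have h1 : w =ᶠ[𝓝 x] fun _ => (0 : ℂ) := by
      filter_upwards [isClosed_closure.isOpen_compl.mem_nhds hx] with y hy
      rw [hw, indicator_of_notMem fun hy' => hy (subset_closure hy')]
    have h2 : ContinuousAt w x := continuousAt_const.congr h1.symm
    have h3 := hwi.fourierInv_fourier_eq (by rw [← hV]; exact hVi) h2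
    rw [hW, hV, h3, h1.eq_of_nhds]
  have h00 : (0 : ℂ) ∈ interior Ω := by
    rw [hG.op.interior_eq]
    exact hG.inn (Metric.mem_ball_self hr)
  have hoff : ∀ x, x ∉ Ω → W x = 0 := by
    intro x hx
    have h1 : Tendsto (fun t : ℝ => W ((1 + t) • x)) (𝓝[>] 0) (𝓝 (W x)) := by
      have h2 : Continuous fun t : ℝ => W ((1 + t) • x) := by fun_prop
      have h3 := h2.tendsto 0
      simp only [add_zero, one_smul] at h3
      exact h3.mono_left nhdsWithin_le_nhds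
    have h2 : Tendsto (fun t : ℝ => W ((1 + t) • x)) (𝓝[>] 0) (𝓝 0) := by
      refine tendsto_const_nhds.congr' ?_
      filter_upwards [self_mem_nhdsWithin] with t ht
      have ht0 : 0 < t := ht
      symm
      refine hoff1 _ fun hcl => hx ?_
      have h3 := hG.conv.combo_closure_interior_mem_interior hcl h00
        (a := 1 / (1 + t)) (b := t / (1 + t)) (by positivity) (by positivity) (by field_simp)
      rw [smul_zero, add_zero, smul_smul, one_div_mul_cancel (by positivity), one_smul,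
        hG.op.interior_eq] at h3
      exact h3
    exact tendsto_nhds_unique h1 h2
  have hWi : Integrable W := by
    refine hWc.integrable_of_hasCompactSupport ?_
    refine HasCompactSupport.intro (isCompact_closedBall (0 : ℂ) R) fun x hx => hoff x fun hx' => ?_
    exact hx (Metric.ball_subset_closedBall (hG.out hx'))
  have hFW : 𝓕 W = V := by
    rw [hW]
    refine hVc.fourier_fourierInv_eq hVi ?_
    have h1 : (𝓕 V) = fun x => W (-x) := by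
      funext x
      rw [hW, Real.fourierInv_eq_fourier_neg, neg_neg]
    rw [h1]
    exact hWi.comp_neg
  refine ⟨W, hWc, hoff, ?_, ?_, ?_⟩
  · intro x y
    rw [hW]
    refine (hol_Fi hVi (A := |A3|) (fun ξ => (hb3 ξ).trans ?_) x y).trans ?_
    · exact mul_le_mul_of_nonneg_right (le_abs_self _) (by positivity)
    · exact mul_le_mul_of_nonneg_right (by linarith) (Real.sqrt_nonneg _)
  · rw [hFW]
    exact hVi
  · intro ξ
    rw [hFW]
    exact hrel ξ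

end Pool.Agent.Y287.MK
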