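import Pool.Agent.Y278.MK.Stm

/-!
# MK-SCALE: dilation invariance
-/

set_option autoImplicit false

namespace Pool.Agent.Y287.MK

open MeasureTheory Set Real Filter Topology
open scoped Pointwise
open Pool.Agent.Y278.MK

theorem map_res {s : ℝ} (hs : s ≠ 0) {A : Set ℂ} (hA : MeasurableSet A) :
    Measure.map (fun x : ℂ => s • x) (volume.restrict ((fun x : ℂ => s • x) ⁻¹' A)) =
      ENNReal.ofReal |(s ^ 2)⁻¹| • volume.restrict A := by
  have h1 := Measure.map_addHaar_smul (volume : Measure ℂ) hs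
  rw [Complex.finrank_real_complex] at h1
  rw [← Measure.restrict_map (by fun_prop) hA, h1, Measure.restrict_smul]

theorem memLp_dil {s : ℝ} (hs : s ≠ 0) {A : Set ℂ} (hA : MeasurableSet A) {F : Type*}
    [NormedAddCommGroup F] {f : ℂ → F} (hf : MemLp f 2 (volume.restrict A)) :
    MemLp (fun x => f (s • x)) 2 (volume.restrict ((fun x : ℂ => s • x) ⁻¹' A)) := by
  have h1 : MemLp f 2 (Measure.map (fun x : ℂ => s • x)
      (volume.restrict ((fun x : ℂ => s • x) ⁻¹' A))) := by
    rw [map_res hs hA]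
    exact hf.smul_measure ENNReal.ofReal_ne_top
  exact h1.comp_of_map (by fun_prop)

theorem int_dil {r : ℝ} (hr : 0 < r) (Ω : Set ℂ) (g : ℂ → ℝ) :
    ∫ x in {x : ℂ | r⁻¹ • x ∈ Ω}, g (r⁻¹ • x) = r ^ 2 * ∫ x in Ω, g x := by
  have h1 := Measure.setIntegral_comp_smul (volume : Measure ℂ) g {x : ℂ | r⁻¹ • x ∈ Ω}
    (inv_ne_zero hr.ne')
  rw [h1, Complex.finrank_real_complex, smul_eq_mul]
  have h2 : r⁻¹ • {x : ℂ | r⁻¹ • x ∈ Ω} = Ω := by
    ext x
    rw [Set.mem_smul_set]
    constructor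
    · rintro ⟨y, hy, rfl⟩
      exact hy
    · intro hx
      refine ⟨r • x, ?_, ?_⟩
      · change r⁻¹ • (r • x) ∈ Ω
        rw [inv_smul_smul₀ hr.ne']
        exact hx
      · rw [inv_smul_smul₀ hr.ne']
  rw [h2, inv_pow, inv_inv, abs_of_pos (by positivity)]

theorem scale_thm : S_SCALE := by
  rintro Ω lam r hm hr ⟨c, u, G, hu, hG, h1, h2, h3⟩
  have hr0 := hr.ne'
  have hri := inv_ne_zero hr0
  refine ⟨c, fun x => u (r⁻¹ • x), fun x => r⁻¹ • G (r⁻¹ • x), memLp_dil hri hm hu,
    (memLp_dil hri hm hG).const_smul r⁻¹, ?_, ?_, ?_⟩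
  · intro φ hφ hφc v
    have hd : ∀ y w : ℂ, fderiv ℝ (fun z => φ (r • z)) y w = r * fderiv ℝ φ (r • y) w := by
      intro y w
      have k1 : HasFDerivAt (fun z : ℂ => r • z) (r • ContinuousLinearMap.id ℝ ℂ) y :=
        (hasFDerivAt_id y).const_smul r
      have k2 := ((hφ.differentiable (by norm_num) (r • y)).hasFDerivAt).comp y k1
      rw [show (fun z => φ (r • z)) = φ ∘ fun z : ℂ => r • z from rfl, k2.fderiv]
      change fderiv ℝ φ (r • y) (r • w) = _
      rw [map_smul, smul_eq_mul]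
    have k := h1 (fun z => φ (r • z)) (hφ.comp (contDiff_const_smul r))
      (hφc.comp_homeomorph (Homeomorph.smulOfNeZero r hr0)) v
    have e1 := int_dil hr Ω fun y => (u y - c) * fderiv ℝ φ (r • y) v
    have e2 := int_dil hr Ω fun y => r⁻¹ * (inner ℝ (G y) v * φ (r • y))
    simp only [smul_inv_smul₀ hr0] at e1 e2
    rw [e1]
    have e3 : ∫ x in {x : ℂ | r⁻¹ • x ∈ Ω}, inner ℝ (r⁻¹ • G (r⁻¹ • x)) v * φ x =
        r ^ 2 * ∫ x in Ω, r⁻¹ * (inner ℝ (G x) v * φ (r • x)) := by
      rw [← e2]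
      refine integral_congr_ae (Eventually.of_forall fun x => ?_)
      simp only [real_inner_smul_left]
      ring
    rw [e3, integral_const_mul]
    have e4 : ∫ x in Ω, (u x - c) * fderiv ℝ (fun z => φ (r • z)) x v =
        r * ∫ x in Ω, (u x - c) * fderiv ℝ φ (r • x) v := by
      rw [← integral_const_mul]
      refine integral_congr_ae (Eventually.of_forall fun x => ?_)
      simp only [hd]
      ring
    rw [e4] at k
    have e5 : r ^ 2 * ∫ x in Ω, (u x - c) * fderiv ℝ φ (r • x) v =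
        r * (r * ∫ x in Ω, (u x - c) * fderiv ℝ φ (r • x) v) := by ring
    rw [e5, k]
    field_simp
  · intro φ hφ hφc
    have hd : ∀ y w : ℂ, fderiv ℝ (fun z => φ (r • z)) y w = r * fderiv ℝ φ (r • y) w := by
      intro y w
      have k1 : HasFDerivAt (fun z : ℂ => r • z) (r • ContinuousLinearMap.id ℝ ℂ) y :=
        (hasFDerivAt_id y).const_smul r
      have k2 := ((hφ.differentiable (by norm_num) (r • y)).hasFDerivAt).comp y k1
      rw [show (fun z => φ (r • z)) = φ ∘ fun z : ℂ => r • z from rfl, k2.fderiv]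
      change fderiv ℝ φ (r • y) (r • w) = _
      rw [map_smul, smul_eq_mul]
    have k := h2 (fun z => φ (r • z)) (hφ.comp (contDiff_const_smul r))
      (hφc.comp_homeomorph (Homeomorph.smulOfNeZero r hr0))
    have e1 := int_dil hr Ω fun y => r⁻¹ * fderiv ℝ φ (r • y) (G y)
    have e2 := int_dil hr Ω fun y => u y * φ (r • y)
    simp only [smul_inv_smul₀ hr0] at e1 e2
    have e3 : ∫ x in {x : ℂ | r⁻¹ • x ∈ Ω}, fderiv ℝ φ x (r⁻¹ • G (r⁻¹ • x)) =
        r ^ 2 * ∫ x in Ω, r⁻¹ * fderiv ℝ φ (r • x) (G x) := by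
      rw [← e1]
      refine integral_congr_ae (Eventually.of_forall fun x => ?_)
      simp only [map_smul, smul_eq_mul]
    rw [e3, e2, integral_const_mul]
    have e4 : ∫ x in Ω, fderiv ℝ (fun z => φ (r • z)) x (G x) =
        r * ∫ x in Ω, fderiv ℝ φ (r • x) (G x) := by
      rw [← integral_const_mul]
      refine integral_congr_ae (Eventually.of_forall fun x => ?_)
      simp only [hd]
    rw [e4] at k
    have e5 : r ^ 2 * (r⁻¹ * ∫ x in Ω, fderiv ℝ φ (r • x) (G x)) =
        r * ∫ x in Ω, fderiv ℝ φ (r • x) (G x) := by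
      field_simp
    rw [e5, k]
    field_simp
  · intro h0
    apply h3
    have hq : Measure.QuasiMeasurePreserving (fun x : ℂ => r • x) (volume.restrict Ω)
        (volume.restrict {x : ℂ | r⁻¹ • x ∈ Ω}) := by
      refine ⟨by fun_prop, ?_⟩
      have hm' : MeasurableSet {x : ℂ | r⁻¹ • x ∈ Ω} := by
        have : Measurable fun x : ℂ => r⁻¹ • x := by fun_prop
        exact this hm
      have e : (fun x : ℂ => r • x) ⁻¹' {x : ℂ | r⁻¹ • x ∈ Ω} = Ω := by
        ext x
        change r⁻¹ • (r • x) ∈ Ω ↔ x ∈ Ω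
        rw [inv_smul_smul₀ hr0]
      have k := map_res hr0 hm'
      rw [e] at k
      rw [k]
      exact Measure.smul_absolutelyContinuous
    have k := hq.ae_eq_comp h0
    have e : ((fun x => u (r⁻¹ • x)) ∘ fun x : ℂ => r • x) = u := by
      funext x
      change u (r⁻¹ • (r • x)) = u x
      rw [inv_smul_smul₀ hr0]
    rw [e] at k
    exact k

end Pool.Agent.Y287.MK
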