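import Pool.Agent.Y278.MK.Stm
import Pool.Agent.TH298.Sch.Avg

/-!
# MK-HOL: the normalised solution on a convex set and its Hoelder constant
-/

set_option autoImplicit false

namespace Pool.Agent.Y287.MK

open MeasureTheory Set Filter Topology
open scoped FourierTransform RealInnerProductSpace Pointwise
open Pool.Agent.Y278.MK
open Pool.Agent.TH298.Sch (Sol)

/-! ### elementary estimates -/

theorem exp_sub (a b : ℝ) : ‖Complex.exp (a * Complex.I) - Complex.exp (b * Complex.I)‖ ≤ |a - b| := by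
  have h1 : Complex.exp (a * Complex.I) - Complex.exp (b * Complex.I) =
      Complex.exp (b * Complex.I) * (Complex.exp (Complex.I * ((a - b : ℝ) : ℂ)) - 1) := by
    rw [mul_sub, ← Complex.exp_add, mul_one]
    congr 2
    push_cast
    ring
  rw [h1, norm_mul, Complex.norm_exp_ofReal_mul_I, one_mul]
  exact Real.norm_exp_I_mul_ofReal_sub_one_le

theorem exp_sub_sqrt (a b : ℝ) :
    ‖Complex.exp (a * Complex.I) - Complex.exp (b * Complex.I)‖ ≤ 2 * √|a - b| := by
  rcases le_total |a - b| 1 with h | h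
  · refine (exp_sub a b).trans ?_
    have h1 : |a - b| ≤ √|a - b| := by
      rw [Real.le_sqrt (abs_nonneg _) (abs_nonneg _)]
      nlinarith [abs_nonneg (a - b)]
    have := Real.sqrt_nonneg |a - b|
    linarith
  · have h1 : ‖Complex.exp (a * Complex.I) - Complex.exp (b * Complex.I)‖ ≤ 1 + 1 := by
      refine (norm_sub_le _ _).trans ?_
      rw [Complex.norm_exp_ofReal_mul_I, Complex.norm_exp_ofReal_mul_I]
    have h2 : 1 ≤ √|a - b| := Real.one_le_sqrt.2 h
    linarith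

/-! ### the transform of the indicator -/

/-- the transform of the indicator -/
noncomputable def Fo (Ω : Set ℂ) (ξ : ℂ) : ℂ := 𝓕 (Ω.indicator fun _ => (1 : ℂ)) ξ

theorem Fo_eq {Ω : Set ℂ} (hm : MeasurableSet Ω) (ξ : ℂ) :
    Fo Ω ξ = ∫ x in Ω, Complex.exp (((-2 * Real.pi * ⟪x, ξ⟫ : ℝ) : ℂ) * Complex.I) := by
  rw [Fo, Real.fourier_eq', ← integral_indicator hm]
  refine integral_congr_ae (Eventually.of_forall fun x => ?_)
  by_cases hx : x ∈ Ω
  · simp only [indicator_of_mem hx, smul_eq_mul, mul_one]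
  · simp only [indicator_of_notMem hx, smul_eq_mul, mul_zero]

theorem Fo_bound {Ω : Set ℂ} (hm : MeasurableSet Ω) {v : ℝ} (hfin : volume Ω < ⊤)
    (hv : (volume Ω).toReal ≤ v) (ξ : ℂ) : ‖Fo Ω ξ‖ ≤ v := by
  rw [Fo_eq hm]
  refine (norm_setIntegral_le_of_norm_le_const (C := 1) hfin ?_).trans ?_
  · intro x _
    rw [Complex.norm_exp_ofReal_mul_I]
  · rw [one_mul]
    exact hv

theorem int_exp {Ω : Set ℂ} (hfin : volume Ω < ⊤) (ξ : ℂ) :
    IntegrableOn (fun x : ℂ => Complex.exp (((-2 * Real.pi * ⟪x, ξ⟫ : ℝ) : ℂ) * Complex.I)) Ω := by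
  refine Measure.integrableOn_of_bounded (M := 1) hfin.ne
    (by fun_prop : Continuous fun x : ℂ =>
      Complex.exp (((-2 * Real.pi * ⟪x, ξ⟫ : ℝ) : ℂ) * Complex.I)).aestronglyMeasurable ?_
  exact Eventually.of_forall fun x => (Complex.norm_exp_ofReal_mul_I _).le

theorem Fo_lip {Ω : Set ℂ} (hm : MeasurableSet Ω) {R v : ℝ} (hR : 0 < R) (hΩ : Ω ⊆ Metric.ball 0 R)
    (hfin : volume Ω < ⊤) (hv : (volume Ω).toReal ≤ v) (ξ η : ℂ) :
    ‖Fo Ω ξ - Fo Ω η‖ ≤ 2 * Real.pi * R * v * ‖ξ - η‖ := by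
  have hpi := Real.pi_pos
  rw [Fo_eq hm, Fo_eq hm, ← integral_sub (int_exp hfin ξ) (int_exp hfin η)]
  refine (norm_setIntegral_le_of_norm_le_const (C := 2 * Real.pi * R * ‖ξ - η‖) hfin ?_).trans ?_
  · intro x hx
    refine (exp_sub _ _).trans ?_
    have h1 : -2 * Real.pi * ⟪x, ξ⟫ - -2 * Real.pi * ⟪x, η⟫ = (-2 * Real.pi) * ⟪x, ξ - η⟫ := by
      rw [inner_sub_right]
      ring
    rw [h1, abs_mul]
    have h2 : |(-2 * Real.pi)| = 2 * Real.pi := by
      rw [abs_of_neg (by linarith)]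
      ring
    have h3 : |⟪x, ξ - η⟫| ≤ R * ‖ξ - η‖ := by
      refine (abs_real_inner_le_norm _ _).trans ?_
      have h4 : ‖x‖ < R := by
        have := hΩ hx
        rwa [mem_ball_zero_iff] at this
      exact mul_le_mul_of_nonneg_right h4.le (norm_nonneg _)
    rw [h2]
    calc 2 * Real.pi * |⟪x, ξ - η⟫| ≤ 2 * Real.pi * (R * ‖ξ - η‖) :=
          mul_le_mul_of_nonneg_left h3 (by positivity)
      _ = 2 * Real.pi * R * ‖ξ - η‖ := by ring
  · have h1 : volume.real Ω ≤ v := hv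
    calc 2 * Real.pi * R * ‖ξ - η‖ * volume.real Ω ≤ 2 * Real.pi * R * ‖ξ - η‖ * v :=
          mul_le_mul_of_nonneg_left h1 (by positivity)
      _ = 2 * Real.pi * R * v * ‖ξ - η‖ := by ring

theorem Fo_decay {Ω : Set ℂ} {r0 R v : ℝ} (hr : 0 < r0) (hG : Good r0 R Ω) (hfin : volume Ω < ⊤)
    (hv : (volume Ω).toReal ≤ v) {ξ : ℂ} (hξ : 1 ≤ ‖ξ‖) :
    ‖Fo Ω ξ‖ ≤ (2 + 1 / r0) / r0 * v / ‖ξ‖ := by
  have hm := hG.op.measurableSet
  have hξ0 : 0 < ‖ξ‖ := by linarith
  obtain ⟨a, ha⟩ : ∃ a : ℂ, a = (1 / (2 * ‖ξ‖ ^ 2)) • ξ := ⟨_, rfl⟩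
  obtain ⟨d, hd⟩ : ∃ d : ℝ, d = 1 / (r0 * ‖ξ‖) := ⟨_, rfl⟩
  have hd0 : 0 < d := by rw [hd]; positivity
  have hin : ⟪a, ξ⟫ = 1 / 2 := by
    rw [ha, real_inner_smul_left, real_inner_self_eq_norm_sq]
    field_simp
  have han : ‖a‖ = 1 / (2 * ‖ξ‖) := by
    rw [ha, norm_smul, Real.norm_of_nonneg (by positivity)]
    field_simp
  obtain ⟨Ω', hΩ'⟩ : ∃ Ω' : Set ℂ, Ω' = (1 + d) • Ω := ⟨_, rfl⟩
  have hd1 : (1 + d : ℝ) ≠ 0 := by positivity
  have hm' : MeasurableSet Ω' := by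
    rw [hΩ']
    exact (hG.op.smul₀ hd1).measurableSet
  have hvol : volume Ω' = ENNReal.ofReal ((1 + d) ^ 2) * volume Ω := by
    rw [hΩ', Measure.addHaar_smul, Complex.finrank_real_complex, abs_of_pos (by positivity)]
  have hfin' : volume Ω' < ⊤ := by
    rw [hvol]
    exact ENNReal.mul_lt_top ENNReal.ofReal_lt_top hfin
  have hvol' : (volume Ω').toReal = (1 + d) ^ 2 * (volume Ω).toReal := by
    rw [hvol, ENNReal.toReal_mul, ENNReal.toReal_ofReal (by positivity)]
  have h0 : (0 : ℂ) ∈ Ω := hG.inn (Metric.mem_ball_self hr)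
  have key : ∀ x y : ℂ, x ∈ Ω → y ∈ Ω → x + d • y ∈ Ω' := by
    intro x y hx hy
    rw [hΩ', Set.mem_smul_set]
    refine ⟨(1 / (1 + d)) • x + (d / (1 + d)) • y, ?_, ?_⟩
    · refine hG.conv hx hy (by positivity) (by positivity) ?_
      field_simp
    · rw [smul_add, smul_smul, smul_smul]
      congr 1
      · rw [mul_one_div_cancel hd1, one_smul]
      · rw [mul_div_cancel₀ _ hd1]
  have hsub1 : ∀ x, x ∈ Ω → x ∈ Ω' := by
    intro x hx
    have := key x 0 hx h0
    rwa [smul_zero, add_zero] at this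
  have hsub2 : ∀ x, x - a ∈ Ω → x ∈ Ω' := by
    intro x hx
    have h1 : d⁻¹ • a ∈ Ω := by
      refine hG.inn ?_
      rw [mem_ball_zero_iff, norm_smul, Real.norm_of_nonneg (by positivity), han, hd]
      have : (1 / (r0 * ‖ξ‖))⁻¹ * (1 / (2 * ‖ξ‖)) = r0 / 2 := by field_simp
      rw [this]
      linarith
    have h2 := key (x - a) (d⁻¹ • a) hx h1
    rwa [smul_inv_smul₀ hd0.ne', sub_add_cancel] at h2
  -- the transform after a translation
  let f : ℂ → ℂ := fun x => Complex.exp (((-2 * Real.pi * ⟪x, ξ⟫ : ℝ) : ℂ) * Complex.I) •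
    (Ω.indicator (fun _ => (1 : ℂ)) x)
  have hf : Fo Ω ξ = ∫ x, f x := by rw [Fo, Real.fourier_eq']
  have hf2 : ∀ x, f (x - a) = - (Complex.exp (((-2 * Real.pi * ⟪x, ξ⟫ : ℝ) : ℂ) * Complex.I) *
      (Ω.indicator (fun _ => (1 : ℂ)) (x - a))) := by
    intro x
    change Complex.exp (((-2 * Real.pi * ⟪x - a, ξ⟫ : ℝ) : ℂ) * Complex.I) *
      (Ω.indicator (fun _ => (1 : ℂ)) (x - a)) = _
    have h1 : ((-2 * Real.pi * ⟪x - a, ξ⟫ : ℝ) : ℂ) * Complex.I =
        ((-2 * Real.pi * ⟪x, ξ⟫ : ℝ) : ℂ) * Complex.I + Real.pi * Complex.I := by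
      rw [inner_sub_left, hin]
      push_cast
      ring
    rw [h1, Complex.exp_add, Complex.exp_pi_mul_I]
    ring
  have hfi : Integrable f := by
    have h1 := (integrable_indicator_iff hm).2 (int_exp hfin ξ)
    refine h1.congr (Eventually.of_forall fun x => ?_)
    simp only [f]
    by_cases hx : x ∈ Ω
    · rw [indicator_of_mem hx, indicator_of_mem hx, smul_eq_mul, mul_one]
    · rw [indicator_of_notMem hx, indicator_of_notMem hx, smul_zero]
  have hfi2 : Integrable fun x => f (x - a) := hfi.comp_sub_right a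
  have h2F : Fo Ω ξ + Fo Ω ξ = ∫ x, (f x + f (x - a)) := by
    rw [integral_add hfi hfi2, integral_sub_right_eq_self f a, ← hf]
  -- pointwise bound
  let g : ℂ → ℝ := fun x => 2 * Ω'.indicator (fun _ => (1 : ℝ)) x -
    Ω.indicator (fun _ => (1 : ℝ)) x - Ω.indicator (fun _ => (1 : ℝ)) (x - a)
  have i1 : Integrable (Ω'.indicator (fun _ => (1 : ℝ)) : ℂ → ℝ) :=
    (integrable_indicator_iff hm').2 (integrableOn_const hfin'.ne)
  have i2 : Integrable (Ω.indicator (fun _ => (1 : ℝ)) : ℂ → ℝ) :=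
    (integrable_indicator_iff hm).2 (integrableOn_const hfin.ne)
  have i3 : Integrable fun x : ℂ => Ω.indicator (fun _ => (1 : ℝ)) (x - a) := i2.comp_sub_right a
  have i12 : Integrable fun x : ℂ => 2 * Ω'.indicator (fun _ => (1 : ℝ)) x -
      Ω.indicator (fun _ => (1 : ℝ)) x := (i1.const_mul 2).sub i2
  have hgi : Integrable g := i12.sub i3
  have hgint : ∫ x, g x = 2 * ((volume Ω').toReal - (volume Ω).toReal) := by
    have e1 : ∫ x, g x = (∫ x, 2 * Ω'.indicator (fun _ => (1 : ℝ)) x) -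
        (∫ x, Ω.indicator (fun _ => (1 : ℝ)) x) -
        ∫ x, Ω.indicator (fun _ => (1 : ℝ)) (x - a) := by
      rw [← integral_sub (i1.const_mul 2) i2, ← integral_sub i12 i3]
    rw [e1, integral_const_mul, integral_sub_right_eq_self (Ω.indicator fun _ => (1 : ℝ)) a,
      integral_indicator hm, integral_indicator hm', setIntegral_const, setIntegral_const]
    simp only [smul_eq_mul, mul_one, measureReal_def]
    ring
  have hpt : ∀ x, ‖f x + f (x - a)‖ ≤ g x := by
    intro x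
    rw [hf2]
    simp only [f, g]
    have he : ‖Complex.exp (((-2 * Real.pi * ⟪x, ξ⟫ : ℝ) : ℂ) * Complex.I)‖ = 1 :=
      Complex.norm_exp_ofReal_mul_I _
    by_cases h1 : x ∈ Ω
    · by_cases h2 : x - a ∈ Ω
      · rw [indicator_of_mem h1, indicator_of_mem h2, indicator_of_mem h1, indicator_of_mem h2,
          indicator_of_mem (hsub1 x h1), smul_eq_mul, add_neg_cancel, norm_zero]
        norm_num
      · rw [indicator_of_mem h1, indicator_of_notMem h2, indicator_of_mem h1,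
          indicator_of_notMem h2, indicator_of_mem (hsub1 x h1), smul_eq_mul, mul_one, mul_zero,
          neg_zero, add_zero, he]
        norm_num
    · by_cases h2 : x - a ∈ Ω
      · rw [indicator_of_notMem h1, indicator_of_mem h2, indicator_of_notMem h1,
          indicator_of_mem h2, indicator_of_mem (hsub2 x h2), smul_zero, mul_one, zero_add,
          norm_neg, he]
        norm_num
      · rw [indicator_of_notMem h1, indicator_of_notMem h2, indicator_of_notMem h1,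
          indicator_of_notMem h2, smul_zero, mul_zero, neg_zero, add_zero, norm_zero, sub_zero,
          sub_zero]
        exact mul_nonneg (by norm_num) (indicator_nonneg (fun _ _ => zero_le_one) _)
  have h3 : ‖Fo Ω ξ + Fo Ω ξ‖ ≤ 2 * ((volume Ω').toReal - (volume Ω).toReal) := by
    rw [h2F, ← hgint]
    exact norm_integral_le_of_norm_le hgi (Eventually.of_forall hpt)
  rw [← two_mul, norm_mul, Complex.norm_ofNat, hvol'] at h3
  have hV0 : 0 ≤ (volume Ω).toReal := ENNReal.toReal_nonneg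
  have h4 : ‖Fo Ω ξ‖ ≤ (2 * d + d ^ 2) * (volume Ω).toReal := by nlinarith
  have h5 : d ≤ 1 / r0 := by
    rw [hd]
    exact one_div_le_one_div_of_le hr (by nlinarith)
  have h6 : 2 * d + d ^ 2 ≤ d * (2 + 1 / r0) := by nlinarith
  calc ‖Fo Ω ξ‖ ≤ (2 * d + d ^ 2) * (volume Ω).toReal := h4
    _ ≤ d * (2 + 1 / r0) * v := mul_le_mul h6 hv hV0 (by positivity)
    _ = (2 + 1 / r0) / r0 * v / ‖ξ‖ := by
      rw [hd]
      field_simp

end Pool.Agent.Y287.MK
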