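import Pool.Agent.Y287.MK.Hol

/-!
# MK-HOL: bounds for the transform of the normalised solution
-/

set_option autoImplicit false

namespace Pool.Agent.Y287.MK

open MeasureTheory Set Filter Topology
open scoped FourierTransform RealInnerProductSpace Pointwise
open Pool.Agent.Y278.MK
open Pool.Agent.TH298.Sch (Sol)

theorem mod_eq (x ξ : ℂ) : Complex.exp (((-2 * Real.pi * ⟪x, ξ⟫ : ℝ) : ℂ) * Complex.I) =
    ((Real.cos ⟪(2 * Real.pi) • ξ, x⟫ : ℝ) : ℂ) -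
      ((Real.sin ⟪(2 * Real.pi) • ξ, x⟫ : ℝ) : ℂ) * Complex.I := by
  have h1 : -2 * Real.pi * ⟪x, ξ⟫ = - ⟪(2 * Real.pi) • ξ, x⟫ := by
    rw [real_inner_smul_left, real_inner_comm]
    ring
  rw [h1, Complex.exp_mul_I, ← Complex.ofReal_cos, ← Complex.ofReal_sin, Real.cos_neg,
    Real.sin_neg]
  push_cast
  ring

theorem int_c {Ω : Set ℂ} {g1 g2 : ℂ → ℝ} (h1 : IntegrableOn g1 Ω) (h2 : IntegrableOn g2 Ω) :
    ∫ x in Ω, ((g1 x : ℂ) - (g2 x : ℂ) * Complex.I) =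
      ((∫ x in Ω, g1 x : ℝ) : ℂ) - ((∫ x in Ω, g2 x : ℝ) : ℂ) * Complex.I := by
  have h1' : IntegrableOn (fun x => (g1 x : ℂ)) Ω := Integrable.ofReal h1
  have h2' : IntegrableOn (fun x => (g2 x : ℂ) * Complex.I) Ω :=
    (Integrable.ofReal h2).mul_const Complex.I
  rw [integral_sub h1' h2', integral_mul_const, integral_complex_ofReal, integral_complex_ofReal]

/-- the transform of the normalised solution -/
noncomputable def Vo (Ω : Set ℂ) (c : ℝ) (u : ℂ → ℝ) (ξ : ℂ) : ℂ :=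
  𝓕 (Ω.indicator fun x => (((u x - c) / c : ℝ) : ℂ)) ξ

theorem Vo_eq {Ω : Set ℂ} (hm : MeasurableSet Ω) (c : ℝ) (u : ℂ → ℝ) (ξ : ℂ) :
    Vo Ω c u ξ = ∫ x in Ω, Complex.exp (((-2 * Real.pi * ⟪x, ξ⟫ : ℝ) : ℂ) * Complex.I) *
      (((u x - c) / c : ℝ) : ℂ) := by
  rw [Vo, Real.fourier_eq', ← integral_indicator hm]
  refine integral_congr_ae (Eventually.of_forall fun x => ?_)
  by_cases hx : x ∈ Ω
  · simp only [indicator_of_mem hx, smul_eq_mul]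
  · simp only [indicator_of_notMem hx, smul_eq_mul, mul_zero]

theorem Vo_rel {Ω : Set ℂ} {lam c : ℝ} {u : ℂ → ℝ} {G : ℂ → ℂ} (hb : Bornology.IsBounded Ω)
    (hm : MeasurableSet Ω) (h : Sol Ω lam c u G) (hc : c ≠ 0) (ξ : ℂ) :
    ((4 * Real.pi ^ 2 * ‖ξ‖ ^ 2 - lam : ℝ) : ℂ) * Vo Ω c u ξ = (lam : ℂ) * Fo Ω ξ := by
  have hui := h.ui hb
  obtain ⟨s1, s2⟩ := Pool.Agent.W632.Schiffer.star hb hm hui h.h1 h.h2 ((2 * Real.pi) • ξ)
  have hn : ‖(2 * Real.pi) • ξ‖ ^ 2 = 4 * Real.pi ^ 2 * ‖ξ‖ ^ 2 := by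
    rw [norm_smul, Real.norm_of_nonneg (by positivity)]
    ring
  rw [hn] at s1 s2
  have c1 : Continuous fun x : ℂ => Real.cos ⟪(2 * Real.pi) • ξ, x⟫ := by fun_prop
  have c2 : Continuous fun x : ℂ => Real.sin ⟪(2 * Real.pi) • ξ, x⟫ := by fun_prop
  have j1 : IntegrableOn (fun x => u x * Real.cos ⟪(2 * Real.pi) • ξ, x⟫) Ω :=
    Integrable.mul_bdd (c := 1) hui c1.aestronglyMeasurable
      (Eventually.of_forall fun x => Real.abs_cos_le_one _)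
  have j2 : IntegrableOn (fun x => u x * Real.sin ⟪(2 * Real.pi) • ξ, x⟫) Ω :=
    Integrable.mul_bdd (c := 1) hui c2.aestronglyMeasurable
      (Eventually.of_forall fun x => Real.abs_sin_le_one _)
  have j3 : IntegrableOn (fun x => Real.cos ⟪(2 * Real.pi) • ξ, x⟫) Ω :=
    Measure.integrableOn_of_bounded (M := 1) hb.measure_lt_top.ne c1.aestronglyMeasurable
      (Eventually.of_forall fun x => Real.abs_cos_le_one _)
  have j4 : IntegrableOn (fun x => Real.sin ⟪(2 * Real.pi) • ξ, x⟫) Ω :=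
    Measure.integrableOn_of_bounded (M := 1) hb.measure_lt_top.ne c2.aestronglyMeasurable
      (Eventually.of_forall fun x => Real.abs_sin_le_one _)
  obtain ⟨A1, hA1⟩ : ∃ A1, A1 = ∫ x in Ω, u x * Real.cos ⟪(2 * Real.pi) • ξ, x⟫ := ⟨_, rfl⟩
  obtain ⟨A2, hA2⟩ : ∃ A2, A2 = ∫ x in Ω, u x * Real.sin ⟪(2 * Real.pi) • ξ, x⟫ := ⟨_, rfl⟩
  obtain ⟨B1, hB1⟩ : ∃ B1, B1 = ∫ x in Ω, Real.cos ⟪(2 * Real.pi) • ξ, x⟫ := ⟨_, rfl⟩
  obtain ⟨B2, hB2⟩ : ∃ B2, B2 = ∫ x in Ω, Real.sin ⟪(2 * Real.pi) • ξ, x⟫ := ⟨_, rfl⟩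
  rw [← hA1, ← hB1] at s1
  rw [← hA2, ← hB2] at s2
  have hF : Fo Ω ξ = (B1 : ℂ) - (B2 : ℂ) * Complex.I := by
    rw [Fo_eq hm, hB1, hB2, ← int_c j3 j4]
    simp only [mod_eq]
  have hV : Vo Ω c u ξ = (((A1 - c * B1) / c : ℝ) : ℂ) -
      (((A2 - c * B2) / c : ℝ) : ℂ) * Complex.I := by
    have k1 : IntegrableOn (fun x => (u x * Real.cos ⟪(2 * Real.pi) • ξ, x⟫ -
        c * Real.cos ⟪(2 * Real.pi) • ξ, x⟫) / c) Ω := (j1.sub (j3.const_mul c)).div_const c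
    have k2 : IntegrableOn (fun x => (u x * Real.sin ⟪(2 * Real.pi) • ξ, x⟫ -
        c * Real.sin ⟪(2 * Real.pi) • ξ, x⟫) / c) Ω := (j2.sub (j4.const_mul c)).div_const c
    have e1 : ∫ x in Ω, (u x * Real.cos ⟪(2 * Real.pi) • ξ, x⟫ -
        c * Real.cos ⟪(2 * Real.pi) • ξ, x⟫) / c = (A1 - c * B1) / c := by
      rw [integral_div, integral_sub j1 (j3.const_mul c), integral_const_mul, ← hA1, ← hB1]
    have e2 : ∫ x in Ω, (u x * Real.sin ⟪(2 * Real.pi) • ξ, x⟫ -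
        c * Real.sin ⟪(2 * Real.pi) • ξ, x⟫) / c = (A2 - c * B2) / c := by
      rw [integral_div, integral_sub j2 (j4.const_mul c), integral_const_mul, ← hA2, ← hB2]
    rw [Vo_eq hm, ← e1, ← e2, ← int_c k1 k2]
    refine integral_congr_ae (Eventually.of_forall fun x => ?_)
    simp only [mod_eq]
    push_cast
    ring
  have t1 : (4 * Real.pi ^ 2 * ‖ξ‖ ^ 2 - lam) * ((A1 - c * B1) / c) = lam * B1 := by
    field_simp
    linear_combination s1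
  have t2 : (4 * Real.pi ^ 2 * ‖ξ‖ ^ 2 - lam) * ((A2 - c * B2) / c) = lam * B2 := by
    field_simp
    linear_combination s2
  rw [hF, hV, mul_sub, mul_sub, ← mul_assoc, ← mul_assoc, ← Complex.ofReal_mul,
    ← Complex.ofReal_mul, t1, t2]
  push_cast
  ring

theorem V_bound {V F : ℂ → ℂ} {lam R v : ℝ} (hlam : 0 < lam) (hR : 0 < R) (hv : 0 ≤ v)
    (hV : Continuous V)
    (hrel : ∀ ξ : ℂ, ((4 * Real.pi ^ 2 * ‖ξ‖ ^ 2 - lam : ℝ) : ℂ) * V ξ = (lam : ℂ) * F ξ)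
    (hF0 : ∀ ξ, ‖F ξ‖ ≤ v) (hFl : ∀ ξ η, ‖F ξ - F η‖ ≤ 2 * Real.pi * R * v * ‖ξ - η‖) (ξ : ℂ) :
    ‖V ξ‖ ≤ √lam * R * v + v := by
  have hpi := Real.pi_pos
  obtain ⟨s, hs⟩ : ∃ s, s = √lam := ⟨_, rfl⟩
  have hs0 : 0 < s := by rw [hs]; exact Real.sqrt_pos.2 hlam
  have hs2 : s ^ 2 = lam := by rw [hs]; exact Real.sq_sqrt hlam.le
  rw [← hs]
  have off : ∀ ξ : ℂ, ξ ≠ 0 → 2 * Real.pi * ‖ξ‖ ≠ s → ‖V ξ‖ ≤ s * R * v := by
    intro ξ hξ hne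
    have hξ0 : 0 < ‖ξ‖ := norm_pos_iff.2 hξ
    obtain ⟨η, hη⟩ : ∃ η : ℂ, η = (s / (2 * Real.pi * ‖ξ‖)) • ξ := ⟨_, rfl⟩
    have hηn : ‖η‖ = s / (2 * Real.pi) := by
      rw [hη, norm_smul, Real.norm_of_nonneg (by positivity)]
      field_simp
    have hFη : F η = 0 := by
      have h1 := hrel η
      have h2 : 4 * Real.pi ^ 2 * ‖η‖ ^ 2 - lam = 0 := by
        rw [hηn, ← hs2]
        field_simp
        ring
      rw [h2, Complex.ofReal_zero, zero_mul] at h1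
      rcases mul_eq_zero.1 h1.symm with h3 | h3
      · exact absurd (Complex.ofReal_eq_zero.1 h3) hlam.ne'
      · exact h3
    have hdist : ‖ξ - η‖ = |2 * Real.pi * ‖ξ‖ - s| / (2 * Real.pi) := by
      have h1 : ξ - η = (1 - s / (2 * Real.pi * ‖ξ‖)) • ξ := by
        rw [sub_smul, one_smul, hη]
      rw [h1, norm_smul, Real.norm_eq_abs]
      have h2 : |2 * Real.pi * ‖ξ‖ - s| = |1 - s / (2 * Real.pi * ‖ξ‖)| * (2 * Real.pi * ‖ξ‖) := by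
        have h3 : 2 * Real.pi * ‖ξ‖ - s =
            (1 - s / (2 * Real.pi * ‖ξ‖)) * (2 * Real.pi * ‖ξ‖) := by
          field_simp
        conv_lhs => rw [h3]
        rw [abs_mul, abs_of_pos (by positivity : 0 < 2 * Real.pi * ‖ξ‖)]
      rw [h2]
      field_simp
    have h4 : |2 * Real.pi * ‖ξ‖ - s| * (2 * Real.pi * ‖ξ‖ + s) * ‖V ξ‖ =
        lam * ‖F ξ - F η‖ := by
      rw [hFη, sub_zero]
      have h5 := congrArg norm (hrel ξ)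
      rw [norm_mul, norm_mul, Complex.norm_real, Complex.norm_real, Real.norm_eq_abs,
        Real.norm_of_nonneg hlam.le] at h5
      rw [← h5, ← hs2]
      have h6 : 4 * Real.pi ^ 2 * ‖ξ‖ ^ 2 - s ^ 2 =
          (2 * Real.pi * ‖ξ‖ - s) * (2 * Real.pi * ‖ξ‖ + s) := by ring
      rw [h6, abs_mul, abs_of_pos (by positivity : 0 < 2 * Real.pi * ‖ξ‖ + s)]
    have h5 := hFl ξ η
    rw [hdist] at h5
    have h6 : 0 < |2 * Real.pi * ‖ξ‖ - s| := abs_pos.2 (sub_ne_zero.2 hne)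
    have h7 : |2 * Real.pi * ‖ξ‖ - s| * ((2 * Real.pi * ‖ξ‖ + s) * ‖V ξ‖) ≤
        |2 * Real.pi * ‖ξ‖ - s| * (s * (s * R * v)) := by
      calc |2 * Real.pi * ‖ξ‖ - s| * ((2 * Real.pi * ‖ξ‖ + s) * ‖V ξ‖)
          = lam * ‖F ξ - F η‖ := by rw [← mul_assoc]; exact h4
        _ ≤ lam * (2 * Real.pi * R * v * (|2 * Real.pi * ‖ξ‖ - s| / (2 * Real.pi))) :=
          mul_le_mul_of_nonneg_left h5 hlam.le
        _ = |2 * Real.pi * ‖ξ‖ - s| * (s * (s * R * v)) := by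
          rw [← hs2]
          field_simp
    have h8 := le_of_mul_le_mul_left h7 h6
    have h9 : s * ‖V ξ‖ ≤ (2 * Real.pi * ‖ξ‖ + s) * ‖V ξ‖ :=
      mul_le_mul_of_nonneg_right (by nlinarith) (norm_nonneg _)
    exact le_of_mul_le_mul_left (h9.trans h8) hs0
  have hsR : 0 ≤ s * R * v := by positivity
  by_cases h0 : ξ = 0
  · have h1 := congrArg norm (hrel ξ)
    rw [norm_mul, norm_mul, Complex.norm_real, Complex.norm_real, Real.norm_eq_abs,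
      Real.norm_of_nonneg hlam.le, h0, norm_zero] at h1
    have h2 : |4 * Real.pi ^ 2 * 0 ^ 2 - lam| = lam := by
      rw [zero_pow two_ne_zero, mul_zero, zero_sub, abs_neg, abs_of_pos hlam]
    rw [h2] at h1
    have h3 := mul_left_cancel₀ hlam.ne' h1
    rw [h0, h3]
    have := hF0 0
    linarith
  · by_cases hne : 2 * Real.pi * ‖ξ‖ = s
    · have h1 : Tendsto (fun t : ℝ => ‖V ((1 + t) • ξ)‖) (𝓝[>] 0) (𝓝 ‖V ξ‖) := by
        have h2 : Continuous fun t : ℝ => ‖V ((1 + t) • ξ)‖ := by fun_prop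
        have h3 := h2.tendsto 0
        simp only [add_zero, one_smul] at h3
        exact h3.mono_left nhdsWithin_le_nhds
      have h4 : ‖V ξ‖ ≤ s * R * v := by
        refine le_of_tendsto h1 ?_
        filter_upwards [self_mem_nhdsWithin] with t ht
        have ht0 : 0 < t := ht
        refine off _ (smul_ne_zero (by positivity) h0) ?_
        rw [norm_smul, Real.norm_of_nonneg (by positivity)]
        intro h5
        have h6 : 2 * Real.pi * ((1 + t) * ‖ξ‖) = s + t * s := by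
          rw [← hne]
          ring
        rw [h6] at h5
        have : 0 < t * s := by positivity
        linarith
      linarith
    · have := off ξ h0 hne
      linarith

theorem V_decay {V F : ℂ → ℂ} {lam L1 A A1 : ℝ} (hlam : 0 < lam) (hL : lam ≤ L1) (hA : 0 ≤ A)
    (hA1 : 0 ≤ A1)
    (hrel : ∀ ξ : ℂ, ((4 * Real.pi ^ 2 * ‖ξ‖ ^ 2 - lam : ℝ) : ℂ) * V ξ = (lam : ℂ) * F ξ)
    (hF : ∀ ξ : ℂ, 1 ≤ ‖ξ‖ → ‖F ξ‖ ≤ A / ‖ξ‖) (hV : ∀ ξ, ‖V ξ‖ ≤ A1) (ξ : ℂ) :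
    ‖V ξ‖ * (1 + ‖ξ‖) ^ 3 ≤ A1 * (2 + √L1) ^ 3 + 8 * (L1 * A) := by
  have hL0 : 0 < L1 := lt_of_lt_of_le hlam hL
  have hs := Real.sqrt_nonneg L1
  have hs2 : √L1 ^ 2 = L1 := Real.sq_sqrt hL0.le
  have hn := norm_nonneg ξ
  rcases le_or_gt (1 + √L1) ‖ξ‖ with h | h
  · have h1 : 1 ≤ ‖ξ‖ := by linarith
    have h2 := hF ξ h1
    have hpi := Real.pi_gt_three
    have h3 : ‖ξ‖ ^ 2 ≤ 4 * Real.pi ^ 2 * ‖ξ‖ ^ 2 - lam := by
      have h4 : L1 ≤ ‖ξ‖ ^ 2 := by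
        rw [← hs2]
        exact pow_le_pow_left₀ hs (by linarith) 2
      have h5 : 9 ≤ Real.pi ^ 2 := by nlinarith
      nlinarith [sq_nonneg ‖ξ‖]
    have h4 : ‖ξ‖ ^ 2 * ‖V ξ‖ ≤ L1 * (A / ‖ξ‖) := by
      have h5 := congrArg norm (hrel ξ)
      rw [norm_mul, norm_mul, Complex.norm_real, Complex.norm_real, Real.norm_eq_abs,
        Real.norm_of_nonneg hlam.le] at h5
      calc ‖ξ‖ ^ 2 * ‖V ξ‖ ≤ |4 * Real.pi ^ 2 * ‖ξ‖ ^ 2 - lam| * ‖V ξ‖ :=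
            mul_le_mul_of_nonneg_right (h3.trans (le_abs_self _)) (norm_nonneg _)
        _ = lam * ‖F ξ‖ := h5
        _ ≤ L1 * (A / ‖ξ‖) := mul_le_mul hL h2 (norm_nonneg _) hL0.le
    have h5 : ‖V ξ‖ * ‖ξ‖ ^ 3 ≤ L1 * A := by
      have h6 := mul_le_mul_of_nonneg_right h4 hn
      have h7 : L1 * (A / ‖ξ‖) * ‖ξ‖ = L1 * A := by
        field_simp
      rw [h7] at h6
      calc ‖V ξ‖ * ‖ξ‖ ^ 3 = ‖ξ‖ ^ 2 * ‖V ξ‖ * ‖ξ‖ := by ring
        _ ≤ L1 * A := h6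
    have h6 : (1 + ‖ξ‖) ^ 3 ≤ 8 * ‖ξ‖ ^ 3 := by
      calc (1 + ‖ξ‖) ^ 3 ≤ (2 * ‖ξ‖) ^ 3 := pow_le_pow_left₀ (by linarith) (by linarith) 3
        _ = 8 * ‖ξ‖ ^ 3 := by ring
    have h7 : ‖V ξ‖ * (1 + ‖ξ‖) ^ 3 ≤ ‖V ξ‖ * (8 * ‖ξ‖ ^ 3) :=
      mul_le_mul_of_nonneg_left h6 (norm_nonneg _)
    have h8 : 0 ≤ A1 * (2 + √L1) ^ 3 := by positivity
    nlinarith
  · have h1 : (1 + ‖ξ‖) ^ 3 ≤ (2 + √L1) ^ 3 := pow_le_pow_left₀ (by linarith) (by linarith) 3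
    have h2 : ‖V ξ‖ * (1 + ‖ξ‖) ^ 3 ≤ A1 * (2 + √L1) ^ 3 :=
      mul_le_mul (hV ξ) h1 (by positivity) hA1
    have h3 : 0 ≤ 8 * (L1 * A) := by positivity
    linarith

end Pool.Agent.Y287.MK
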